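import Pool.Agent.Q255.CU.Stm

/-! Project CU (helper255): job MSQ (helper299). -/

set_option autoImplicit false
set_option linter.all false

namespace Pool.Agent.Q299.CU

open MeasureTheory Filter Topology Finset
open Pool.Agent.Q255.CU
open Pool.Agent.Q255.HC (Sys ex)

noncomputable section

instance prob_m3 : IsProbabilityMeasure m3 := by unfold m3; infer_instance

/-- `a b²` is a cube if the exponents of `a` and `b` are the same modulo 3 -/
theorem cube_of {a b : ℕ} (ha : 1 ≤ a) (hb : 1 ≤ b) (h : fc a = fc b) : ∃ c : ℕ, a * b ^ 2 = c ^ 3 := by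
  have hab : a * b ^ 2 ≠ 0 := by positivity
  refine ⟨Nat.floorRoot 3 (a * b ^ 2), ?_⟩
  have hc0 : Nat.floorRoot 3 (a * b ^ 2) ≠ 0 := by
    rw [Nat.floorRoot_ne_zero]
    exact ⟨by norm_num, hab⟩
  refine Nat.eq_of_factorization_eq hab (pow_ne_zero _ hc0) fun p => ?_
  rw [Nat.factorization_pow, Nat.factorization_floorRoot]
  simp only [Finsupp.smul_apply, smul_eq_mul, Finsupp.floorDiv_apply]
  have h1 : ((a.factorization p : ℕ) : ZMod 3) = ((b.factorization p : ℕ) : ZMod 3) := by
    have := congrArg (fun x : ℕ →₀ ZMod 3 => x p) h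
    simpa [fc] using this
  have h2 : (a * b ^ 2).factorization p = a.factorization p + 2 * b.factorization p := by
    rw [Nat.factorization_mul (by omega) (by positivity), Nat.factorization_pow]
    simp
  have h3 : 3 ∣ (a * b ^ 2).factorization p := by
    rw [h2, ← ZMod.natCast_eq_zero_iff]
    push_cast
    rw [h1]
    have : (3 : ZMod 3) = 0 := rfl
    linear_combination (b.factorization p : ZMod 3) * this
  rw [Nat.floorDiv_eq_div]
  exact (Nat.mul_div_cancel' h3).symm

theorem chi_eq {q : ℕ} {χ : DirichletCharacter ℂ q} (hχ : χ ^ 3 = 1) {a b : ℕ} (ha : 1 ≤ a) (hb : 1 ≤ b)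
    (h : fc a = fc b) (hqa : a.Coprime q) (hqb : b.Coprime q) : χ (a : ZMod q) = χ (b : ZMod q) := by
  obtain ⟨c, hc⟩ := cube_of ha hb h
  have hcu : c.Coprime q := by
    have : (c ^ 3).Coprime q := by
      rw [← hc]
      exact Nat.Coprime.mul_left hqa (Nat.Coprime.pow_left 2 hqb)
    exact Nat.Coprime.coprime_dvd_left (dvd_pow_self c (by norm_num)) this
  have hone : ∀ x : ℕ, x.Coprime q → χ (x : ZMod q) ^ 3 = 1 := by
    intro x hx
    have hu : IsUnit (x : ZMod q) := (ZMod.isUnit_iff_coprime x q).2 hx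
    have e : (χ ^ 3) (x : ZMod q) = χ (x : ZMod q) ^ 3 := by
      rw [MulChar.pow_apply' χ (by norm_num)]
    rw [← e, hχ]
    exact MulChar.one_apply hu
  have e1 : χ (a : ZMod q) * χ (b : ZMod q) ^ 2 = 1 := by
    have := hone c hcu
    rw [← map_pow] at this ⊢
    rw [← map_mul]
    rw [← this]
    congr 1
    exact_mod_cast congrArg (Nat.cast : ℕ → ZMod q) hc
  have e2 := hone b hqb
  calc χ (a : ZMod q) = χ (a : ZMod q) * χ (b : ZMod q) ^ 3 := by rw [e2, mul_one]
    _ = (χ (a : ZMod q) * χ (b : ZMod q) ^ 2) * χ (b : ZMod q) := by ring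
    _ = χ (b : ZMod q) := by rw [e1, one_mul]

/-- **CU-MSQ.** -/
theorem t_MSQ (hS : S_SYT) : S_MSQ := by
  intro q χ hq hχ M N
  obtain ⟨_, _, _, hnm, hort⟩ := hS
  set μ : Measure (ℕ → ZMod 3) := Measure.infinitePi fun _ : ℕ => m3 with hμ
  haveI : IsProbabilityMeasure μ := by rw [hμ]; infer_instance
  set I := Ioc M (M + N) with hI
  have hI1 : ∀ a ∈ I, 1 ≤ a := fun a ha => by rw [hI, mem_Ioc] at ha; omega
  have hint : ∀ a b : ℕ, Integrable (fun ω => f3 ω a * star (f3 ω b)) μ := by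
    intro a b
    refine Integrable.of_bound (C := 1) ?_ ?_
    · have hst : Measurable (fun z : ℂ => star z) := continuous_star.measurable
      exact (((hnm 0 a).2.2).mul (hst.comp (hnm 0 b).2.2)).aestronglyMeasurable
    · filter_upwards with ω
      rw [norm_mul, norm_star, (hnm ω a).1, (hnm ω b).1, mul_one]
  have hsq : ∀ ω, ((‖∑ a ∈ I, f3 ω a * χ (a : ZMod q)‖ ^ 2 : ℝ) : ℂ) =
      ∑ a ∈ I, ∑ b ∈ I, (χ (a : ZMod q) * star (χ (b : ZMod q))) * (f3 ω a * star (f3 ω b)) := by
    intro ω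
    have h1 : (((‖∑ a ∈ I, f3 ω a * χ (a : ZMod q)‖ ^ 2 : ℝ)) : ℂ) =
        (∑ a ∈ I, f3 ω a * χ (a : ZMod q)) * star (∑ a ∈ I, f3 ω a * χ (a : ZMod q)) := by
      rw [RCLike.star_def, Complex.mul_conj, Complex.normSq_eq_norm_sq]
    rw [h1, star_sum, sum_mul_sum]
    refine sum_congr rfl fun a _ => sum_congr rfl fun b _ => ?_
    rw [star_mul']
    ring
  have hval : ∀ a ∈ I, ∀ b ∈ I, (χ (a : ZMod q) * star (χ (b : ZMod q))) * (if fc a = fc b then (1 : ℂ) else 0) =
      (((if fc a = fc b ∧ a.Coprime q ∧ b.Coprime q then (1 : ℝ) else 0) : ℝ) : ℂ) := by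
    intro a ha b hb
    have hnc : ∀ x : ℕ, ¬ x.Coprime q → χ (x : ZMod q) = 0 := by
      intro x hx
      exact MulChar.map_nonunit χ fun hu => hx ((ZMod.isUnit_iff_coprime x q).1 hu)
    by_cases h1 : fc a = fc b
    · by_cases h2 : a.Coprime q
      · by_cases h3 : b.Coprime q
        · rw [if_pos h1, if_pos ⟨h1, h2, h3⟩, chi_eq hχ (hI1 a ha) (hI1 b hb) h1 h2 h3, mul_one]
          rw [RCLike.star_def, Complex.mul_conj, Complex.normSq_eq_norm_sq]
          have hu : IsUnit (b : ZMod q) := (ZMod.isUnit_iff_coprime b q).2 h3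
          have hn : ‖χ (b : ZMod q)‖ = 1 := by
            obtain ⟨u, hu'⟩ := hu
            rw [← hu']
            exact DirichletCharacter.unit_norm_eq_one χ u
          rw [hn]
          norm_num
        · rw [if_neg (c := fc a = fc b ∧ a.Coprime q ∧ b.Coprime q) (fun h => h3 h.2.2), hnc b h3, star_zero,
            mul_zero, zero_mul]
          norm_num
      · rw [if_neg (c := fc a = fc b ∧ a.Coprime q ∧ b.Coprime q) (fun h => h2 h.2.1), hnc a h2, zero_mul,
          zero_mul]
        norm_num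
    · rw [if_neg h1, if_neg (fun h => h1 h.1), mul_zero]
      norm_num
  have hkey : ((∫ ω, ‖∑ a ∈ I, f3 ω a * χ (a : ZMod q)‖ ^ 2 ∂μ : ℝ) : ℂ) =
      ((∑ a ∈ I, ∑ b ∈ I, (if fc a = fc b ∧ a.Coprime q ∧ b.Coprime q then (1 : ℝ) else 0) : ℝ) : ℂ) := by
    rw [← integral_complex_ofReal]
    rw [integral_congr_ae (Filter.Eventually.of_forall hsq)]
    rw [integral_finsetSum _ fun a _ => integrable_finsetSum _ fun b _ => (hint a b).const_mul _]
    rw [Complex.ofReal_sum]
    refine sum_congr rfl fun a ha => ?_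
    rw [Complex.ofReal_sum]
    rw [integral_finsetSum _ fun b _ => (hint a b).const_mul _]
    refine sum_congr rfl fun b hb => ?_
    rw [integral_const_mul, hort a b (hI1 a ha) (hI1 b hb), hval a ha b hb]
  rw [Complex.ofReal_injective hkey]
  have hdiag : ((I.filter (fun a => a.Coprime q)).card : ℝ) = ∑ a ∈ I, (if a.Coprime q then (1 : ℝ) else 0) := by
    rw [card_filter]
    push_cast
    rfl
  rw [hdiag]
  refine sum_le_sum fun a ha => ?_
  refine le_trans ?_ (single_le_sum (f := fun b => if fc a = fc b ∧ a.Coprime q ∧ b.Coprime q then (1 : ℝ) else 0)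
    (fun b _ => by split_ifs <;> norm_num) ha)
  by_cases h : a.Coprime q
  · rw [if_pos h]
    simp only [true_and, if_pos (And.intro h h), le_refl]
  · rw [if_neg h]
    split_ifs <;> norm_num

end

end Pool.Agent.Q299.CU
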