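import Pool.Agent.Q255.CU.Stm

/-! Project CU (helper255): jobs SHP and MSQ (helper299). -/

set_option autoImplicit false
set_option linter.all false

namespace Pool.Agent.Q299.CU

open MeasureTheory Filter Topology Finset
open Pool.Agent.Q255.CU
open Pool.Agent.Q255.HC (Sys ex)

noncomputable section

theorem orth {q : ℕ} [Fact q.Prime] (a b : ZMod q) :
    ∑ χ : DirichletCharacter ℂ q, χ a * star (χ b) = if a = b ∧ a ≠ 0 then ((q - 1 : ℕ) : ℂ) else 0 := by
  by_cases hb : b = 0
  · subst hb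
    rw [if_neg (fun h => h.2 h.1)]
    refine sum_eq_zero fun χ _ => ?_
    rw [MulChar.map_zero, star_zero, mul_zero]
  · have h := DirichletCharacter.sum_char_inv_mul_char_eq (n := q) ℂ (a := b) (isUnit_iff_ne_zero.2 hb) a
    have e : ∀ χ : DirichletCharacter ℂ q, χ a * star (χ b) = χ b⁻¹ * χ a := by
      intro χ
      rw [MulChar.star_apply', MulChar.inv_apply', mul_comm]
    rw [sum_congr rfl fun χ _ => e χ, h, Nat.totient_prime (Fact.out)]
    by_cases hab : b = a
    · rw [if_pos hab, if_pos ⟨hab.symm, hab ▸ hb⟩]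
    · rw [if_neg hab, if_neg (fun h => hab h.1.symm)]

theorem sumsq {q : ℕ} [hq : Fact q.Prime] (f : ℕ → ℂ) (hf : ∀ n, 1 ≤ n → ‖f n‖ = 1) (M N : ℕ)
    (hN : 2 * N + 1 ≤ q) :
    ((q : ℝ) - 1) * ((N : ℝ) - 1) ≤
      ∑ χ : DirichletCharacter ℂ q, ‖∑ a ∈ Ioc M (M + N), f a * χ (a : ZMod q)‖ ^ 2 := by
  have hq2 := hq.out.two_le
  set I := Ioc M (M + N) with hI
  have hinj : ∀ a ∈ I, ∀ b ∈ I, ((a : ZMod q) = (b : ZMod q)) → a = b := by
    intro a ha b hb hab
    rw [hI, mem_Ioc] at ha hb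
    rw [ZMod.natCast_eq_natCast_iff] at hab
    rcases le_total a b with h | h
    · have := (Nat.modEq_iff_dvd' h).1 hab
      have h2 : b - a < q := by omega
      have := Nat.eq_zero_of_dvd_of_lt this h2
      omega
    · have := (Nat.modEq_iff_dvd' h).1 hab.symm
      have h2 : a - b < q := by omega
      have := Nat.eq_zero_of_dvd_of_lt this h2
      omega
  have hsq : ∀ χ : DirichletCharacter ℂ q, (((‖∑ a ∈ I, f a * χ (a : ZMod q)‖ ^ 2 : ℝ)) : ℂ) =
      ∑ a ∈ I, ∑ b ∈ I, f a * star (f b) * (χ (a : ZMod q) * star (χ (b : ZMod q))) := by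
    intro χ
    have h1 : (((‖∑ a ∈ I, f a * χ (a : ZMod q)‖ ^ 2 : ℝ)) : ℂ) =
        (∑ a ∈ I, f a * χ (a : ZMod q)) * star (∑ a ∈ I, f a * χ (a : ZMod q)) := by
      rw [RCLike.star_def, Complex.mul_conj, Complex.normSq_eq_norm_sq]
    rw [h1, star_sum, sum_mul_sum]
    refine sum_congr rfl fun a _ => sum_congr rfl fun b _ => ?_
    rw [star_mul']
    ring
  have htot : ((∑ χ : DirichletCharacter ℂ q, ‖∑ a ∈ I, f a * χ (a : ZMod q)‖ ^ 2 : ℝ) : ℂ) =
      (((q : ℝ) - 1) * ((I.filter fun a => ((a : ℕ) : ZMod q) ≠ 0).card : ℝ) : ℝ) := by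
    push_cast
    simp only [← Complex.ofReal_pow]
    rw [sum_congr rfl fun χ _ => hsq χ, sum_comm]
    have : ∀ a ∈ I, ∑ χ : DirichletCharacter ℂ q, ∑ b ∈ I,
        f a * star (f b) * (χ (a : ZMod q) * star (χ (b : ZMod q))) =
        if ((a : ℕ) : ZMod q) ≠ 0 then ((q : ℂ) - 1) else 0 := by
      intro a ha
      rw [sum_comm]
      have h2 : ∀ b ∈ I, ∑ χ : DirichletCharacter ℂ q,
          f a * star (f b) * (χ (a : ZMod q) * star (χ (b : ZMod q))) =
          if a = b then (if ((a : ℕ) : ZMod q) ≠ 0 then ((q : ℂ) - 1) else 0) else 0 := by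
        intro b hb
        rw [← mul_sum, orth]
        by_cases hab : a = b
        · subst hab
          have h3 : f a * star (f a) = 1 := by
            rw [RCLike.star_def, Complex.mul_conj, Complex.normSq_eq_norm_sq, hf a (by rw [hI, mem_Ioc] at ha; omega)]
            norm_num
          rw [h3, one_mul, if_pos rfl]
          by_cases h0 : ((a : ℕ) : ZMod q) ≠ 0
          · rw [if_pos ⟨rfl, h0⟩, if_pos h0]
            push_cast [Nat.cast_sub (by omega : 1 ≤ q)]
            rfl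
          · rw [if_neg (fun h => h0 h.2), if_neg h0]
        · rw [if_neg hab, if_neg (fun h => hab (hinj a ha b hb h.1)), mul_zero]
      rw [sum_congr rfl h2, sum_ite_eq, if_pos ha]
    rw [sum_congr rfl this, ← sum_filter, sum_const, nsmul_eq_mul]
    ring
  have htot' := Complex.ofReal_injective htot
  rw [htot']
  refine mul_le_mul_of_nonneg_left ?_ (by have : (2 : ℝ) ≤ q := by exact_mod_cast hq2
                                          linarith)
  -- at most one multiple of q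
  have hone : (I.filter fun a => ¬ ((a : ℕ) : ZMod q) ≠ 0).card ≤ 1 := by
    rw [card_le_one]
    intro a ha b hb
    rw [mem_filter, not_not] at ha hb
    exact hinj a ha.1 b hb.1 (ha.2.trans hb.2.symm)
  have hadd := card_filter_add_card_filter_not (s := I) (fun a => ((a : ℕ) : ZMod q) ≠ 0)
  have hIc : I.card = N := by rw [hI, Nat.card_Ioc]; omega
  have : N ≤ (I.filter fun a => ((a : ℕ) : ZMod q) ≠ 0).card + 1 := by omega
  have : (N : ℝ) ≤ ((I.filter fun a => ((a : ℕ) : ZMod q) ≠ 0).card : ℝ) + 1 := by exact_mod_cast this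
  linarith

/-- **CU-SHP.** -/
theorem t_SHP : S_SHP := by
  intro f hf q hq M N hN4 hN
  haveI : Fact q.Prime := ⟨hq⟩
  by_contra hcon
  push Not at hcon
  have h1 := sumsq f hf M N hN
  have hNR : (4 : ℝ) ≤ N := by exact_mod_cast hN4
  have hQR : 2 * (N : ℝ) + 1 ≤ q := by exact_mod_cast hN
  have h2 : ∀ χ : DirichletCharacter ℂ q, χ ≠ 1 →
      ‖∑ a ∈ Ioc M (M + N), f a * χ (a : ZMod q)‖ ^ 2 ≤ (N : ℝ) / 4 := by
    intro χ hχ
    have h := (hcon χ hχ).le
    have h3 : ‖∑ a ∈ Ioc M (M + N), f a * χ (a : ZMod q)‖ ^ 2 ≤ (Real.sqrt N / 2) ^ 2 :=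
      pow_le_pow_left₀ (norm_nonneg _) h 2
    rw [div_pow, Real.sq_sqrt (by positivity)] at h3
    linarith
  have h3 : ‖∑ a ∈ Ioc M (M + N), f a * (1 : DirichletCharacter ℂ q) (a : ZMod q)‖ ^ 2 ≤ (N : ℝ) ^ 2 := by
    refine pow_le_pow_left₀ (norm_nonneg _) ?_ 2
    refine (norm_sum_le _ _).trans ?_
    have : ∀ a ∈ Ioc M (M + N), ‖f a * (1 : DirichletCharacter ℂ q) (a : ZMod q)‖ ≤ 1 := by
      intro a ha
      rw [norm_mul, hf a (by rw [mem_Ioc] at ha; omega), one_mul]
      exact DirichletCharacter.norm_le_one _ _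
    refine (sum_le_sum this).trans ?_
    rw [sum_const, Nat.card_Ioc, nsmul_eq_mul, mul_one]
    apply le_of_eq
    congr 1
    omega
  have hcard : ((univ.filter fun χ : DirichletCharacter ℂ q => χ ≠ 1).card : ℝ) = (q : ℝ) - 2 := by
    have e1 := card_filter_add_card_filter_not (s := (univ : Finset (DirichletCharacter ℂ q))) (fun χ => χ ≠ 1)
    have e2 : (univ.filter fun χ : DirichletCharacter ℂ q => ¬ χ ≠ 1) = {1} := by
      ext χ
      simp
    have e3 : (univ : Finset (DirichletCharacter ℂ q)).card = q - 1 := by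
      rw [card_univ, ← Nat.card_eq_fintype_card,
        DirichletCharacter.card_eq_totient_of_hasEnoughRootsOfUnity ℂ q, Nat.totient_prime hq]
    rw [e2, card_singleton, e3] at e1
    have := hq.two_le
    have e4 : (univ.filter fun χ : DirichletCharacter ℂ q => χ ≠ 1).card + 2 = q := by omega
    have e5 : ((univ.filter fun χ : DirichletCharacter ℂ q => χ ≠ 1).card : ℝ) + 2 = q := by exact_mod_cast e4
    linarith
  have h4 : ∑ χ : DirichletCharacter ℂ q, ‖∑ a ∈ Ioc M (M + N), f a * χ (a : ZMod q)‖ ^ 2 ≤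
      ((q : ℝ) - 2) * (N / 4) + (N : ℝ) ^ 2 := by
    rw [← sum_filter_add_sum_filter_not univ (fun χ : DirichletCharacter ℂ q => χ ≠ 1)]
    refine add_le_add ?_ ?_
    · rw [← hcard, ← nsmul_eq_mul]
      exact sum_le_card_nsmul _ _ _ fun χ hχ => h2 χ (mem_filter.1 hχ).2
    · have e2 : (univ.filter fun χ : DirichletCharacter ℂ q => ¬ χ ≠ 1) = {1} := by
        ext χ
        simp
      rw [e2, sum_singleton]
      exact h3
  nlinarith

end

end Pool.Agent.Q299.CU
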